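import Pool.Agent.W385.TT.Nagao

/-!
# The generalized Nagao conjecture for twist families, over all number fields

`K` is a number field.  The base is affine space with coordinates `(t_σ, y)`, an open part of
`𝒴 = ℙ^m`, `m = #σ + 1`.  Let `f_i ∈ 𝒪_K[t_σ][x]` and `h_i ∈ 𝒪_K[t_σ][y]`, `i = 1, …, r`, of odd degrees
`≥ 3` in `x` and in `y`.  For a number field `L ⊇ K` and `d = (d₁, …, d_r)`, `d_i ∈ L^*`, the generic
fibre of the fibration is the product `X_d` over `L(t_σ, y)` of the curves
`d_i h_i(t, y) z² = f_i(t, x)`.  The Picard variety `P_X` is the product of the quadratic twists by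
`d_i h_i(t, y)` of the Jacobians of `z² = f_i(t, x)`; as `h_i` has odd degree in `y`, its
`L(t_σ, y)/L`-trace `B` is `0`, and the rank of `P_X(L(t_σ, y))` is the sum of the ranks of the groups
of homomorphisms over `L(t_σ)` from the Jacobian of `z² = h_i(t, x)` to that of `d_i z² = f_i(t, x)`.

On the algebraic side, there is one finite Galois extension `M` of `K` which controls all these
ranks: if no `√d_i` lies in `L M`, the rank is `0`, and in general it is the rank for a twist `e` over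
`L ∩ M`.  The theorem is the analytic counterpart, for the averages of the question.
-/

set_option autoImplicit false

namespace Pool.Agent.Results.MP_1a0ddd_nt.AllNumberFields

open NumberField IsDedekindDomain Filter Topology Polynomial
open scoped TensorProduct

section
variable {L : Type} [Field L] [NumberField L] {σ : Type}

/-- The value of `N ∈ 𝒪_L[t_σ]` at a point `t` with coordinates in the residue field of `v`. -/
noncomputable def value (v : HeightOneSpectrum (𝓞 L)) (t : σ → 𝓞 L ⧸ v.asIdeal)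
    (N : MvPolynomial σ (𝓞 L)) : 𝓞 L ⧸ v.asIdeal :=
  MvPolynomial.eval₂Hom (Ideal.Quotient.mk v.asIdeal) t N

/-- The polynomial `f(t, x)` over the residue field of `v`, for a point `t`. -/
noncomputable def fibre (v : HeightOneSpectrum (𝓞 L)) (t : σ → 𝓞 L ⧸ v.asIdeal)
    (f : (MvPolynomial σ (𝓞 L))[X]) : (𝓞 L ⧸ v.asIdeal)[X] :=
  f.map (MvPolynomial.eval₂Hom (Ideal.Quotient.mk v.asIdeal) t)

/-- Trace of the Frobenius on `H¹` of the smooth projective curve `e z² = f(t, x)` over the residue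
field of `v`, for `e ≠ 0` in the residue field: it is `q + 1` minus the number of points, and there is
one point at infinity. -/
noncomputable def traceH1 (v : HeightOneSpectrum (𝓞 L)) (t : σ → 𝓞 L ⧸ v.asIdeal)
    (f : (MvPolynomial σ (𝓞 L))[X]) (e : 𝓞 L ⧸ v.asIdeal) : ℤ :=
  (Ideal.absNorm v.asIdeal : ℤ) - Nat.card {P : (𝓞 L ⧸ v.asIdeal) × (𝓞 L ⧸ v.asIdeal) //
    e * P.2 ^ 2 = (fibre v t f).eval P.1}

open Classical in
/-- Trace of the Frobenius on `H¹` of the fibre over `(t, y)`, the product of the curves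
`d_i h_i(t, y) z² = f_i(t, x)`.  The factors with `h_i(t, y) = 0`, which are singular, are left out. -/
noncomputable def fibreTrace {r : ℕ} (v : HeightOneSpectrum (𝓞 L)) (t : σ → 𝓞 L ⧸ v.asIdeal)
    (y : 𝓞 L ⧸ v.asIdeal) (f h : Fin r → (MvPolynomial σ (𝓞 L))[X]) (d : Fin r → 𝓞 L) : ℤ :=
  ∑ i, if (fibre v t (h i)).eval y = 0 then 0 else
    traceH1 v t (f i) (Ideal.Quotient.mk v.asIdeal (d i) * (fibre v t (h i)).eval y)

open Classical in
/-- The average `𝔄_v = q^{-m} ∑_{(t, y)} a_v(fibre over (t, y))`, `m = #σ + 1`.  The points with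
`N(t) = 0`, where the fibre may be singular, are left out. -/
noncomputable def fibreAverage [Fintype σ] {r : ℕ} (f h : Fin r → (MvPolynomial σ (𝓞 L))[X])
    (d : Fin r → 𝓞 L) (N : MvPolynomial σ (𝓞 L)) (v : HeightOneSpectrum (𝓞 L)) : ℝ :=
  (∑ᶠ t : σ → 𝓞 L ⧸ v.asIdeal, if value v t N = 0 then (0 : ℝ) else
    ∑ᶠ y : 𝓞 L ⧸ v.asIdeal, (fibreTrace v t y f h d : ℝ)) /
      (Ideal.absNorm v.asIdeal : ℝ) ^ (Fintype.card σ + 1)

/-- The average `T⁻¹ ∑_{v ∉ R, q_v ≤ T} 𝔄_v log q_v` of the question. -/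
noncomputable def nagaoAverage [Fintype σ] {r : ℕ} (f h : Fin r → (MvPolynomial σ (𝓞 L))[X])
    (d : Fin r → 𝓞 L) (N : MvPolynomial σ (𝓞 L)) (R : Finset (HeightOneSpectrum (𝓞 L)))
    (T : ℕ) : ℝ :=
  (T : ℝ)⁻¹ * ∑ᶠ v ∈ {v : HeightOneSpectrum (𝓞 L) | v ∉ R ∧ Ideal.absNorm v.asIdeal ≤ T},
    fibreAverage f h d N v * Real.log (Ideal.absNorm v.asIdeal : ℝ)

end

section
variable {K : Type} [Field K] [NumberField K] {σ : Type} {r : ℕ}

/-- The polynomials `f_i`, read over the extension `L` of `K`. -/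
noncomputable def polyOver (L : Type) [Field L] [NumberField L] [Algebra K L]
    (f : Fin r → (MvPolynomial σ (𝓞 K))[X]) (i : Fin r) : (MvPolynomial σ (𝓞 L))[X] :=
  (f i).map (MvPolynomial.map (algebraMap (𝓞 K) (𝓞 L)))

variable (K r) in
/-- A twist `d` over the number field `L`, `K ⊆ L`, together with a finite set `R` of primes of `L`
that contains the divisors of `2` and of all `d_i`. -/
structure Twist (L : IntermediateField K (AlgebraicClosure K)) [NumberField L] where
  d : Fin r → 𝓞 L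
  d_ne_zero : ∀ i, d i ≠ 0
  R : Finset (HeightOneSpectrum (𝓞 L))
  good : ∀ v, v ∉ R → (2 : 𝓞 L) ∉ v.asIdeal ∧ ∀ i, d i ∉ v.asIdeal

/-- The average of the question for the fibration `X_d` over `L`. -/
noncomputable def Twist.average [Fintype σ] {L : IntermediateField K (AlgebraicClosure K)}
    [NumberField L] (V : Twist K r L) (f h : Fin r → (MvPolynomial σ (𝓞 K))[X])
    (N : MvPolynomial σ (𝓞 K)) (T : ℕ) : ℝ :=
  nagaoAverage (polyOver L f) (polyOver L h) V.d
    (MvPolynomial.map (algebraMap (𝓞 K) (𝓞 L)) N) V.R T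

/-- `d_i` as an element of the algebraic closure of `K`. -/
noncomputable def el {L : IntermediateField K (AlgebraicClosure K)} (d : Fin r → 𝓞 L)
    (i : Fin r) : AlgebraicClosure K := ((d i : L) : AlgebraicClosure K)

/-- The twists `d` over `L` and `e` over `L₀` (`L₀ = L ∩ M` below): for all `i`, either `d_i e_i` is a
square in `L` and `√e_i ∈ M`, or `√d_i ∉ L M` and `√e_i ∉ M`. -/
def Related (M : IntermediateField K (AlgebraicClosure K))
    {L L₀ : IntermediateField K (AlgebraicClosure K)} (d : Fin r → 𝓞 L) (e : Fin r → 𝓞 L₀) :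
    Prop :=
  ∀ i, ((∃ u ∈ L, u ^ 2 = el d i * el e i) ∧ ∃ t ∈ M, t ^ 2 = el e i) ∨
    ((∀ y ∈ L ⊔ M, y ^ 2 ≠ el d i) ∧ ∀ y ∈ M, y ^ 2 ≠ el e i)

/-- The intertwining number of the representations of `Gal(K̄/K)` induced from the quadratic
characters of `L(√D)/L` and `L'(√D')/L'`: the number of the simple factors of `L ⊗_K L'` in which
`D ⊗ D'` is a square. -/
noncomputable def intertwining (K L L' : Type) [Field K] [Field L] [Algebra K L] [Field L']
    [Algebra K L'] (D : L) (D' : L') : ℕ :=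
  Nat.card {m : MaximalSpectrum (L ⊗[K] L') // IsSquare (Ideal.Quotient.mk m.asIdeal (D ⊗ₜ D'))}

/-- The Gram number `∑_i (deg f_i - 1) (deg h_i - 1) I_i` of two twists, where `I_i` is the
intertwining number for `d_i` and `d'_i`. -/
noncomputable def gram (f h : Fin r → (MvPolynomial σ (𝓞 K))[X])
    {L L' : IntermediateField K (AlgebraicClosure K)} (d : Fin r → 𝓞 L) (d' : Fin r → 𝓞 L') : ℝ :=
  ∑ i, (((f i).natDegree : ℝ) - 1) * (((h i).natDegree : ℝ) - 1) *
    (intertwining K L L' (d i : L) (d' i : L') : ℝ)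

/-- `M` governs the numbers `ρ` for all `X_d / L(t_σ, y)` with `(L, d)` in the class `P`, up to `1/k`.

1. If no `√d_i` lies in `L M`, then `|ρ(d / L)| < 1/k`.

2. If `e` over `L₀ = L ∩ M` is related to `d`, then `|ρ(d / L) - ρ(e / L₀)| < 1/k`.

3. There is a list of at most `2^(((r + 1)² + 1)([M : K] + 1))` twists `e` over subfields of `M` such
that every twist `d` over a number field `L ⊇ K` is related to a member of the list over `L ∩ M`. -/
def Governs (k : ℕ) (M : IntermediateField K (AlgebraicClosure K))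
    (P : ∀ (L : IntermediateField K (AlgebraicClosure K)) [NumberField L],
      (Fin r → 𝓞 L) → Prop)
    (ρ : ∀ (L : IntermediateField K (AlgebraicClosure K)) [NumberField L], Twist K r L → ℝ) :
    Prop :=
  (∀ (L : IntermediateField K (AlgebraicClosure K)) [NumberField L] (V : Twist K r L),
    P L V.d → (∀ i, ∀ y ∈ L ⊔ M, y ^ 2 ≠ el V.d i) → |ρ L V| < 1 / k) ∧
  (∀ (L L₀ : IntermediateField K (AlgebraicClosure K)) [NumberField L] [NumberField L₀],
    L₀ = L ⊓ M → ∀ (V : Twist K r L) (W : Twist K r L₀), P L V.d → P L₀ W.d →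
      Related M V.d W.d → |ρ L V - ρ L₀ W| < 1 / k) ∧
  ∃ (l : ℕ) (G : Fin l → IntermediateField K (AlgebraicClosure K)) (e : ∀ a, Fin r → 𝓞 (G a)),
    l ≤ 2 ^ (((r + 1) ^ 2 + 1) * (Module.finrank K M + 1)) ∧
    (∀ a, G a ≤ M ∧ NumberField (G a) ∧ ∀ i, e a i ≠ 0) ∧
    ∀ (L : IntermediateField K (AlgebraicClosure K)) [NumberField L] (d : Fin r → 𝓞 L),
      (∀ i, d i ≠ 0) → ∃ a, G a = L ⊓ M ∧ Related M d (e a)

end

section
variable {K : Type} [Field K] [NumberField K] {r : ℕ}

instance instNFsub (L : {L : IntermediateField K (AlgebraicClosure K) // NumberField L}) :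
    NumberField L.1 := L.2

variable (K r) in
/-- all twists over all number fields -/
abbrev Ind : Type :=
  Σ L : {L : IntermediateField K (AlgebraicClosure K) // NumberField L}, Twist K r L.1

theorem countable_Ind : Countable (Ind K r) := by
  have h := Pool.Agent.W385.TT.countable_data K (Fin r)
  let g : Ind K r → (Σ L : {L : IntermediateField K (AlgebraicClosure K) // NumberField L},
      (Fin r → 𝓞 L.1) × Finset (HeightOneSpectrum (𝓞 L.1))) := fun i => ⟨i.1, (i.2.d, i.2.R)⟩
  have hg : Function.Injective g := by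
    rintro ⟨L, ⟨d, h1, R, h2⟩⟩ ⟨L', ⟨d', h1', R', h2'⟩⟩ h
    have e1 : L = L' := congrArg Sigma.fst h
    subst e1
    have e2 := eq_of_heq (Sigma.mk.inj h).2
    have e3 : d = d' := congrArg Prod.fst e2
    have e4 : R = R' := congrArg Prod.snd e2
    subst e3
    subst e4
    rfl
  exact hg.countable

/-- passage to the helper library -/
noncomputable def toDat (i : Ind K r) : Pool.Agent.W385.TT.Dat K (Fin r) :=
  ⟨i.1.1, i.1.2, i.2.d, i.2.d_ne_zero⟩

variable {σ : Type} [Fintype σ]

theorem average_eq (f h : Fin r → (MvPolynomial σ (𝓞 K))[X]) (N : MvPolynomial σ (𝓞 K))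
    (i : Ind K r) (T : ℕ) : -i.2.average f h N T = Pool.Agent.H126V.Taub.LA i.2.R T (fun v =>
      -Pool.Agent.W385.TT.NA (fun j => (f j).map (Pool.Agent.W385.TT.cF i.1.1 σ))
        (fun j => (h j).map (Pool.Agent.W385.TT.cF i.1.1 σ)) i.2.d
        (Pool.Agent.W385.TT.cF i.1.1 σ N) v) := by
  classical
  have hset : {v : HeightOneSpectrum (𝓞 i.1.1) | v ∉ i.2.R ∧ Ideal.absNorm v.asIdeal ≤ T} =
      ((Pool.Agent.H126U.ST.VS i.2.R T : Finset (HeightOneSpectrum (𝓞 i.1.1))) :
        Set (HeightOneSpectrum (𝓞 i.1.1))) := by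
    ext v
    have h1 : v ∈ Pool.Agent.H126U.VX i.1.1 T ↔ Ideal.absNorm v.asIdeal ≤ T :=
      Pool.Agent.H126U.mem_VX i.1.1
    simp only [Pool.Agent.H126U.ST.VS, Finset.coe_filter, h1, Set.mem_ofPred_eq]
    exact and_comm
  unfold Twist.average nagaoAverage Pool.Agent.H126V.Taub.LA
  rw [hset, finsum_mem_coe_finset, div_eq_inv_mul, ← mul_neg, ← Finset.sum_neg_distrib]
  congr 1
  refine Finset.sum_congr rfl fun v hv => ?_
  rw [← neg_mul]
  rfl

end

open Pool.Agent.W385.TT in
/-- **The Tauberian generalized Nagao averages of twist families over all number fields.**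
Let `N ≠ 0` be a polynomial in `𝒪_K[t_σ]` such that, outside characteristic `2` and for `N(t) ≠ 0`, the
leading coefficients of `f_i(t, x)` and `h_i(t, y)` are not `0` and these polynomials are separable.
Let `B = ∑_i (deg f_i - 1) (deg h_i - 1)`.  Every sequence of natural numbers which tends to infinity
has a subsequence `T_1 < T_2 < …` along which the averages `T⁻¹ ∑_{q_v ≤ T} 𝔄_v log q_v` of the question
converge for all twists `X_d` over all number fields `L ⊇ K`; the negatives `ρ(X_d / L)` of the limits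
satisfy the following.

(A) For finitely many twists `V_k` over number fields `L_k` and real numbers `a_k`,
`(∑ a_k ρ(V_k / L_k))² ≤ B ∑_{k, l} a_k a_l gram(V_k, V_l)`.

(B) Let `n ≥ 0`, `k ≥ 1`, and let `P` be a class of pairs `(L, d)`, `L` a number field containing
`K`, `d` a twist over `L`, such that for every pair `[L : K] ≤ n` or, for all `i`, the representation
of `Gal(K̄/K)` induced from the quadratic character of `L(√d_i)/L` has intertwining number at most `n`
with itself; for instance all `(L, d)` with `[L : K] ≤ n`.  Then there is a finite Galois extension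
`M` of `K` that governs the numbers `ρ` for all pairs in `P` up to `1/k`.  If `[L : K] ≤ m` for all
pairs in `P`, then the degree of `M` is at most `((4^r m)!)^(2 n (k B)²)`. -/
theorem result (K : Type) [Field K] [NumberField K] (σ : Type) [Fintype σ] (r : ℕ)
    (f h : Fin r → (MvPolynomial σ (𝓞 K))[X])
    (hf : ∀ i, Odd (f i).natDegree) (hf3 : ∀ i, 3 ≤ (f i).natDegree)
    (hh : ∀ i, Odd (h i).natDegree) (hh3 : ∀ i, 3 ≤ (h i).natDegree)
    (N : MvPolynomial σ (𝓞 K)) (_hN0 : N ≠ 0)
    (hN : ∀ (E : Type) [Field E] (ι : 𝓞 K →+* E) (t : σ → E), ι 2 ≠ 0 →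
      MvPolynomial.eval₂ ι t N ≠ 0 → ∀ i,
        (MvPolynomial.eval₂ ι t (f i).leadingCoeff ≠ 0 ∧
          ((f i).map (MvPolynomial.eval₂Hom ι t)).Separable) ∧
        (MvPolynomial.eval₂ ι t (h i).leadingCoeff ≠ 0 ∧
          ((h i).map (MvPolynomial.eval₂Hom ι t)).Separable))
    (B : ℕ) (hB : B = ∑ i, ((f i).natDegree - 1) * ((h i).natDegree - 1))
    (T₀ : ℕ → ℕ) (hT₀ : Tendsto T₀ atTop atTop) :
    ∃ (φ : ℕ → ℕ) (ρ : ∀ (L : IntermediateField K (AlgebraicClosure K)) [NumberField L],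
        Twist K r L → ℝ), StrictMono φ ∧
      (∀ (L : IntermediateField K (AlgebraicClosure K)) [NumberField L] (V : Twist K r L),
        Tendsto (fun m => V.average f h N (T₀ (φ m))) atTop (𝓝 (-(ρ L V)))) ∧
      (∀ (κ : Type) (S : Finset κ) (L : κ → IntermediateField K (AlgebraicClosure K))
        [∀ k, NumberField (L k)] (V : ∀ k, Twist K r (L k)) (a : κ → ℝ),
        (∑ k ∈ S, a k * ρ (L k) (V k)) ^ 2 ≤
          B * ∑ k ∈ S, ∑ l ∈ S, a k * a l * gram f h (V k).d (V l).d) ∧
      ∀ (n k : ℕ), 1 ≤ k →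
        ∀ P : (∀ (L : IntermediateField K (AlgebraicClosure K)) [NumberField L],
          (Fin r → 𝓞 L) → Prop),
        (∀ (L : IntermediateField K (AlgebraicClosure K)) [NumberField L] (d : Fin r → 𝓞 L),
          P L d → Module.finrank K L ≤ n ∨ ∀ i, intertwining K L L (d i : L) (d i : L) ≤ n) →
        ∀ m : ℕ, ∃ M : IntermediateField K (AlgebraicClosure K),
          FiniteDimensional K M ∧ IsGalois K M ∧
          ((∀ (L : IntermediateField K (AlgebraicClosure K)) [NumberField L] (d : Fin r → 𝓞 L),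
            P L d → Module.finrank K L ≤ m) →
              Module.finrank K M ≤ (4 ^ r * m).factorial ^ (2 * n * (k * B) ^ 2)) ∧
          Governs k M P ρ := by
  classical
  have hfN : Loc f N := fun E _ ι t h1 h2 i => (hN E ι t h1 h2 i).1.1
  have hhN : Loc h N := fun E _ ι t h1 h2 i => (hN E ι t h1 h2 i).2.1
  have hNb : (B : ℝ) = ∑ i ∈ (Finset.univ : Finset (Fin r)), bN f h i := by
    rw [hB]
    push_cast
    refine Finset.sum_congr rfl fun i _ => ?_
    unfold bN
    rw [Nat.cast_sub (by have := hf3 i; omega), Nat.cast_sub (by have := hh3 i; omega)]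
    push_cast
    ring
  have hbnn : ∀ j ∈ (Finset.univ : Finset (Fin r)), 0 ≤ bN f h j :=
    fun j _ => (bN_pos hf3 hh3 j).le
  have hcount : Countable (Ind K r) := countable_Ind
  let av : Ind K r → Av K (Finset.univ : Finset (Fin r)) (tN f h N) (bN f h) 0 :=
    fun i => avN hf hf3 hh hh3 hfN hhN (toDat i) i.2.R i.2.good
  have havg : ∀ (i : Ind K r) (T : ℕ), (av i).nat T = -i.2.average f h N T := by
    intro i T
    rw [average_eq]
    unfold Av.nat
    rw [sub_zero]
    rfl
  obtain ⟨φ, hφ, ρ', hlim, hBes⟩ := subseq (fun i j : Ind K r => (av i).G (av j)) (B : ℝ)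
    (fun i T => (av i).nat T) (fun κ S g a η hη => by
      rw [hNb]
      exact Av.nat_ineq hbnn (fun j _ x => abs_tN hf hf3 hh hh3 hfN hhN j x) S
        (fun k => av (g k)) a hη) T₀ hT₀
  have hBe : Bes A1 (Finset.univ : Finset (Fin r)) (bN f h)
      (toDat (K := K) (r := r)) ρ' (B : ℝ) := hBes
  refine ⟨φ, fun L hL V => ρ' ⟨⟨L, hL⟩, V⟩, hφ, ?_, ?_, ?_⟩
  · intro L hL V
    have h1 := (hlim ⟨⟨L, hL⟩, V⟩).neg
    refine h1.congr fun m => ?_
    rw [havg, neg_neg]
  · intro κ S L hL V a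
    have h1 := hBe κ S (fun k => ⟨⟨L k, hL k⟩, V k⟩) a
    refine h1.trans (le_of_eq ?_)
    congr 1
    refine Finset.sum_congr rfl fun k _ => Finset.sum_congr rfl fun l _ => ?_
    congr 1
    unfold GD Gn gram
    refine Finset.sum_congr rfl fun p hp => ?_
    rw [D_A1, D_A1]
    rfl
  · intro n k hk P hP m
    have hkR : (0 : ℝ) < k := by exact_mod_cast hk
    have hdiv : ∀ {x : ℝ}, (k : ℝ) * |x| < 1 → |x| < 1 / k := by
      intro x hx
      rw [lt_div_iff₀ hkR, mul_comm]
      exact hx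
    obtain ⟨M, hM1, hM2, hdeg, hA, hC⟩ := stab' hbnn hNb hBe n k m
      (fun i => P i.1.1 i.2.d)
    have hBd : ∀ i : Ind K r, P i.1.1 i.2.d →
        Bd A1 (Finset.univ : Finset (Fin r)) n (toDat i) := by
      intro i h
      rcases hP i.1.1 i.2.d h with h1 | h1
      · exact Bd_of_finrank h1
      · intro j hj
        rw [D_A1]
        exact h1 j
    have hpr : ∀ (i : Ind K r) (a : Fin r), (toDat i).pr A1 a = el i.2.d a := by
      intro i a
      unfold Dat.pr
      rw [D_A1]
      rfl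
    have hsep : Algebra.IsSeparable K M := inferInstance
    refine ⟨M, hM1, IsGalois.mk, fun h => ?_, ?_, ?_, ?_⟩
    · have := hdeg fun i hi => h i.1.1 i.2.d hi
      rwa [Fintype.card_fin] at this
    · intro L hL V hV hcond
      have h1 := hA ⟨⟨L, hL⟩, V⟩ (hBd _ hV) hV (fun j hj y hy => by
        rw [hpr ⟨⟨L, hL⟩, V⟩]
        exact hcond j y hy)
      exact hdiv h1
    · intro L L₀ hL hL₀ hLL V W hV hW hR
      have h1 := hC ⟨⟨L, hL⟩, V⟩ ⟨⟨L₀, hL₀⟩, W⟩ hLL (hBd _ hV) (hBd _ hW) hV (fun j hj => by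
        rw [hpr ⟨⟨L, hL⟩, V⟩, hpr ⟨⟨L₀, hL₀⟩, W⟩]
        exact hR j)
      exact hdiv h1
    · obtain ⟨l, s, hl, hs⟩ := finite_types1 (r := r) M
      refine ⟨l, fun a => (s a).G, fun a => (s a).e, hl,
        fun a => ⟨(s a).le, (s a).nf, (s a).he⟩, fun L _ d hd => ?_⟩
      obtain ⟨a, ha, hR⟩ := hs L d hd
      exact ⟨a, ha, fun i => hR i⟩

end Pool.Agent.Results.MP_1a0ddd_nt.AllNumberFields
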