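import Pool.Agent.W353.FB.Final

/-!
# The Tauberian generalized Nagao conjecture over all number fields

`f : 𝒳 → 𝒴` is a fibration over a number field `K`, given over an affine open part of `𝒴` over which the
fibres are smooth, `B` is the `K(𝒴)/K`-trace of its Picard variety `P_X`, and `W` is the space
`P_X(K̄(𝒴)) / τ B(K̄) ⊗ ℚ` with the action of the absolute Galois group of `K`; it is finite-dimensional by
Lang and Néron.  For a number field `F ⊇ K` the rank of `P_X(F(𝒴)) / τ B(F)` is `dim W^{Gal(K̄/F)}`, and
the conjecture for `f` over `F` says that the averages `T⁻¹ ∑_{q_v ≤ T} -𝔄*_v log q_v` over the primes `v`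
of `F` tend to it.
The definitions are in `Pool.Agent.W353.FB.Defs`, `Pool.Agent.W353.SP.Defs`, `Pool.Agent.W353.AT.TDefs`,
`Pool.Agent.W353.AT.Defs` and `Pool.Agent.W353.TD.Defs`.
-/

set_option autoImplicit false

namespace Pool.Agent.Results.MP_1a0ddd_nt.ArtinSpectrum

open NumberField Pool.Agent.W353.FB

/-- **The Tauberian averages of a fibration over all number fields.**  Let `W` be a part of the values
`-𝔄*_v` of the fibration `f` (with the trace `B`), given by `N` numbers of absolute value `≤ 1`, and
`s = N - dim W`.  Every sequence `T_j → ∞` has a subsequence along which the averages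
`T⁻¹ ∑_{q_v ≤ T} -𝔄*_v log q_v` converge over all number fields `F ⊇ K`, and the averages of
`-𝔄*_v Re χ(Frob_v)` over `K` for all Artin representations `χ` of `K`.  Let
`dim W^{Gal(K̄/F)} - δ_F` and `dim (W ⊗ χ)^{Gal(K̄/K)} - y_χ` be the limits.  Then
* `∑ y_χ² ≤ s²`, the sum over the irreducible `χ`;
* for every finite Galois extension `M` of `K` the class function `θ = ∑ y_χ χ` on `Gal(M/K)`, the sum
  over the irreducible `χ` of `Gal(M/K)`, satisfies `|θ| ≤ s`;
* `δ_F = ∑ y_χ dim χ^{Gal(K̄/F)}` for all number fields `F ⊇ K`, of any degree;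
* for all `c` and `η > 0` there is a finite Galois extension `M` of `K` with `|δ_F - δ_{F ∩ M}| < η` for
  all number fields `F ⊇ K` of degree at most `c`. -/
theorem result (K : Type) [Field K] [NumberField K] (f : Fibration K) (n g N : ℕ)
    (B : Set (MvPolynomial (Fin n) (𝓞 K))) (W : Type) [AddCommGroup W] [Module ℚ W]
    [FiniteDimensional ℚ W] (ρ : Representation ℚ Gal(AlgebraicClosure K/K) W) (hg : 1 ≤ g)
    (hW : IsPartOf (nagaoValue f B g) N ρ) : TauberianSpectrum (nagaoValue f B g) N ρ :=
  tauberian (nagao_uniq f B hg) hW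

end Pool.Agent.Results.MP_1a0ddd_nt.ArtinSpectrum
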